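import Pool.Agent.MP_cff99f_al.Gen.Main

/-!
Every diagram group of type `FP_2` is of type `FP_n` for all `n`; hence every diagram group of type
`F_n`, `n ≥ 2`, is of type `F_{n+1}`.
-/

namespace Pool.Agent.Results.MP_cff99f_al.AllDiagramGroups

open Pool.Agent.DG

universe u v

theorem result : ∀ {α : Type u} {ι : Type v} (P : Pres α ι) (x : List α),
    (TypeFP 2 (DiagramGroup P x) → ∀ n, TypeFP n (DiagramGroup P x)) ∧
    (∀ n, 2 ≤ n → TypeF n (DiagramGroup P x) → TypeF (n + 1) (DiagramGroup P x)) := by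
  intro α ι P x
  refine ⟨fun h n => main_general P x h n, ?_⟩
  intro n hn h
  obtain ⟨h1, h2, h3⟩ := h
  exact ⟨fun _ => h1 (by omega), fun _ => h2 hn, main_general P x (h3.mono' hn) (n + 1)⟩

end Pool.Agent.Results.MP_cff99f_al.AllDiagramGroups
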